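import Mathlib

/-!
# The star number is unbounded on trees

For every `c` there is a finite tree with star number larger than `c`.
The tree is the complete `d`-ary tree of depth `c + 1` with `d = 2 c² + 1`.
-/

set_option autoImplicit false

namespace Pool.Agent.Results.MP_90e7d5_co.Unbounded

/-- `G` is a star-`k`-PCG: there are positive real weights and `k` pairwise disjoint closed intervals such that
two distinct vertices are adjacent exactly when the sum of their weights lies in one of the intervals. -/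
def IsStarPCG {V : Type} (G : SimpleGraph V) (k : ℕ) : Prop :=
  ∃ (w : V → ℝ) (a b : Fin k → ℝ), (∀ v, 0 < w v) ∧ (∀ j, a j ≤ b j) ∧
    (∀ i j, i ≠ j → Disjoint (Set.Icc (a i) (b i)) (Set.Icc (a j) (b j))) ∧
    ∀ u v, u ≠ v → (G.Adj u v ↔ ∃ j, w u + w v ∈ Set.Icc (a j) (b j))

/-- The star number: the least positive `k` such that `G` is a star-`k`-PCG. -/
noncomputable def starNumber {V : Type} (G : SimpleGraph V) : ℕ :=
  sInf {k : ℕ | 0 < k ∧ IsStarPCG G k}

/-! ### Every finite graph is a star-`k`-PCG for some `k` -/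

theorem two_pow_pair {i j i' j' : ℕ} (hij : i ≠ j) (hij' : i' ≠ j')
    (h : (2 : ℕ) ^ i + 2 ^ j = 2 ^ i' + 2 ^ j') : (i = i' ∧ j = j') ∨ (i = j' ∧ j = i') := by
  have key : ∀ a b a' b' : ℕ, a < b → a' < b' → (2 : ℕ) ^ a + 2 ^ b = 2 ^ a' + 2 ^ b' →
      a = a' ∧ b = b' := by
    intro a b a' b' hab hab' h
    have hb : b = b' := by
      have h1 : (2 : ℕ) ^ a < 2 ^ b := Nat.pow_lt_pow_right (by norm_num) hab
      have h2 : (2 : ℕ) ^ a' < 2 ^ b' := Nat.pow_lt_pow_right (by norm_num) hab'
      have h1p : 0 < (2 : ℕ) ^ a := by positivity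
      have h2p : 0 < (2 : ℕ) ^ a' := by positivity
      rcases lt_trichotomy b b' with hlt | heq | hgt
      · have h3 : (2 : ℕ) ^ (b + 1) ≤ 2 ^ b' := Nat.pow_le_pow_right (by norm_num) hlt
        rw [pow_succ] at h3
        omega
      · exact heq
      · have h3 : (2 : ℕ) ^ (b' + 1) ≤ 2 ^ b := Nat.pow_le_pow_right (by norm_num) hgt
        rw [pow_succ] at h3
        omega
    subst hb
    have h4 : (2 : ℕ) ^ a = 2 ^ a' := by omega
    exact ⟨Nat.pow_right_injective (le_refl 2) h4, rfl⟩
  rcases lt_or_gt_of_ne hij with h1 | h1 <;> rcases lt_or_gt_of_ne hij' with h2 | h2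
  · exact Or.inl (key _ _ _ _ h1 h2 h)
  · obtain ⟨h3, h4⟩ := key _ _ _ _ h1 h2 (by omega)
    exact Or.inr ⟨h3, h4⟩
  · obtain ⟨h3, h4⟩ := key _ _ _ _ h1 h2 (by omega)
    exact Or.inr ⟨h4, h3⟩
  · obtain ⟨h3, h4⟩ := key _ _ _ _ h1 h2 (by omega)
    exact Or.inl ⟨h4, h3⟩

theorem exists_isStarPCG {V : Type} [Finite V] (G : SimpleGraph V) :
    ∃ k : ℕ, 0 < k ∧ IsStarPCG G k := by
  classical
  obtain ⟨n, ⟨e⟩⟩ := Finite.exists_equiv_fin V
  let w : V → ℝ := fun v => (2 : ℝ) ^ (e v : ℕ)
  have hw : ∀ v, 0 < w v := fun v => by positivity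
  have hfin : (insert (0 : ℝ) {x : ℝ | ∃ u v, G.Adj u v ∧ w u + w v = x}).Finite := by
    refine Set.Finite.insert _ ?_
    have : Set.Finite (Set.range (fun p : V × V => w p.1 + w p.2)) := Set.finite_range _
    refine this.subset ?_
    rintro x ⟨u, v, -, rfl⟩
    exact ⟨(u, v), rfl⟩
  let S : Finset ℝ := hfin.toFinset
  have h0 : (0 : ℝ) ∈ S := by simp [S]
  refine ⟨S.card, Finset.card_pos.mpr ⟨0, h0⟩, w, fun j => (S.equivFin.symm j : ℝ),
    fun j => (S.equivFin.symm j : ℝ), hw, fun j => le_refl _, ?_, ?_⟩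
  · intro i j hij
    rw [Set.disjoint_left]
    intro x hx hx'
    simp only [Set.Icc_self, Set.mem_singleton_iff] at hx hx'
    apply hij
    apply S.equivFin.symm.injective
    apply Subtype.ext
    rw [← hx, ← hx']
  · intro u v huv
    constructor
    · intro hadj
      have hmem : w u + w v ∈ S := by
        simp only [S, Set.Finite.mem_toFinset, Set.mem_insert_iff, Set.mem_ofPred_eq]
        exact Or.inr ⟨u, v, hadj, rfl⟩
      refine ⟨S.equivFin ⟨w u + w v, hmem⟩, ?_⟩
      simp
    · rintro ⟨j, hj⟩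
      simp only [Set.Icc_self, Set.mem_singleton_iff] at hj
      have hmem : w u + w v ∈ S := by rw [hj]; exact (S.equivFin.symm j).2
      simp only [S, Set.Finite.mem_toFinset, Set.mem_insert_iff, Set.mem_ofPred_eq] at hmem
      rcases hmem with hmem | ⟨u', v', hadj, hsum⟩
      · exact absurd hmem (ne_of_gt (add_pos (hw u) (hw v)))
      · have hnat : (2 : ℕ) ^ (e u' : ℕ) + 2 ^ (e v' : ℕ) = 2 ^ (e u : ℕ) + 2 ^ (e v : ℕ) := by
          have : ((2 : ℝ) ^ (e u' : ℕ) + 2 ^ (e v' : ℕ)) = 2 ^ (e u : ℕ) + 2 ^ (e v : ℕ) := hsum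
          exact_mod_cast this
        have hne : ∀ x y : V, x ≠ y → ((e x : ℕ)) ≠ (e y : ℕ) := by
          intro x y hxy h
          exact hxy (e.injective (Fin.ext h))
        rcases two_pow_pair (hne _ _ hadj.ne) (hne _ _ huv) hnat with ⟨h1, h2⟩ | ⟨h1, h2⟩
        · have h1' : u' = u := e.injective (Fin.ext h1)
          have h2' : v' = v := e.injective (Fin.ext h2)
          rw [← h1', ← h2']; exact hadj
        · have h1' : u' = v := e.injective (Fin.ext h1)
          have h2' : v' = u := e.injective (Fin.ext h2)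
          rw [← h1', ← h2']; exact hadj.symm

/-! ### The complete `d`-ary tree of depth `h` -/

/-- The vertices of the complete `d`-ary tree of depth `h`: words of length at most `h` over `Fin d`. -/
abbrev Vert (d h : ℕ) : Type := {l : List (Fin d) // l.length ≤ h}

/-- The complete `d`-ary tree of depth `h`: a word `l` is joined to each `a :: l`. -/
def cTree (d h : ℕ) : SimpleGraph (Vert d h) where
  Adj l l' := (∃ a, l'.1 = a :: l.1) ∨ (∃ a, l.1 = a :: l'.1)
  symm := ⟨fun _ _ h => h.symm⟩
  loopless := ⟨fun l h => by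
    rcases h with ⟨a, h⟩ | ⟨a, h⟩ <;>
    · have := congrArg List.length h
      simp at this⟩

instance (d h : ℕ) : Finite (Vert d h) := (List.finite_length_le (Fin d) h).to_subtype

theorem cTree_parent {d h : ℕ} {u x : Vert d h} (hadj : (cTree d h).Adj u x)
    (hle : x.1.length ≤ u.1.length) : ∃ a, u.1 = a :: x.1 := by
  rcases hadj with ⟨a, ha⟩ | ha
  · have := congrArg List.length ha
    simp at this
    omega
  · exact ha

theorem cTree_acyclic (d h : ℕ) : (cTree d h).IsAcyclic := by
  classical
  intro v c hc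
  have hne : c.support.toFinset.Nonempty := ⟨v, by simp⟩
  obtain ⟨u, hu, hmax⟩ := Finset.exists_max_image c.support.toFinset (fun x => x.1.length) hne
  rw [List.mem_toFinset] at hu
  have hc' := hc.rotate hu
  have hsupp : ∀ x ∈ (c.rotate u hu).support, x.1.length ≤ u.1.length := by
    intro x hx
    apply hmax
    rw [List.mem_toFinset]
    exact (SimpleGraph.Walk.mem_support_rotate_iff _ _ _).mp hx
  have h1 : (cTree d h).Adj u (c.rotate u hu).snd :=
    SimpleGraph.Walk.adj_snd hc'.not_nil
  have h2 : (cTree d h).Adj (c.rotate u hu).penultimate u :=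
    SimpleGraph.Walk.adj_penultimate hc'.not_nil
  have h1m : (c.rotate u hu).snd ∈ (c.rotate u hu).support := by
    exact SimpleGraph.Walk.getVert_mem_support _ _
  have h2m : (c.rotate u hu).penultimate ∈ (c.rotate u hu).support := by
    exact SimpleGraph.Walk.getVert_mem_support _ _
  obtain ⟨a, ha⟩ := cTree_parent h1 (hsupp _ h1m)
  obtain ⟨b, hb⟩ := cTree_parent h2.symm (hsupp _ h2m)
  apply hc'.snd_ne_penultimate
  rw [ha] at hb
  apply Subtype.ext
  exact (List.cons.inj hb).2

theorem cTree_connected (d h : ℕ) : (cTree d h).Connected := by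
  have hroot : ∀ (l : List (Fin d)) (hl : l.length ≤ h),
      (cTree d h).Reachable ⟨[], Nat.zero_le _⟩ ⟨l, hl⟩ := by
    intro l
    induction l with
    | nil => intro hl; exact SimpleGraph.Reachable.refl _
    | cons a l ih =>
      intro hl
      have hl' : l.length ≤ h := by
        simp at hl
        omega
      refine (ih hl').trans ?_
      apply SimpleGraph.Adj.reachable
      exact Or.inl ⟨a, rfl⟩
  have : Nonempty (Vert d h) := ⟨⟨[], Nat.zero_le _⟩⟩
  refine SimpleGraph.Connected.mk ?_
  intro u v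
  exact (hroot u.1 u.2).symm.trans (hroot v.1 v.2)

theorem cTree_isTree (d h : ℕ) : (cTree d h).IsTree :=
  ⟨cTree_connected d h, cTree_acyclic d h⟩

/-! ### The lower bound -/

/-- If the middle one of three vertices has a neighbour `y` through the interval `[a, b]` which is not
joined through this interval to the outer two, then the outer two weights are more than `b - a` apart. -/
theorem spread {p q r y a b : ℝ} (hpq : p ≤ q) (hqr : q ≤ r) (hq : q + y ∈ Set.Icc a b)
    (hp : p + y ∉ Set.Icc a b) (hr : r + y ∉ Set.Icc a b) : b - a < r - p := by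
  simp only [Set.mem_Icc, not_and, not_le] at *
  by_contra hcon
  push Not at hcon
  have h1 : p + y < a := by
    by_contra h
    push Not at h
    have := hp h
    linarith [hq.2]
  have h2 := hr (by linarith [hq.1])
  linarith

theorem three_spread {p q r a b c e m yp yq yr : ℝ}
    (hp : p + m ∈ Set.Icc c e) (hq : q + m ∈ Set.Icc c e) (hr : r + m ∈ Set.Icc c e)
    (hpp : p + yp ∈ Set.Icc a b) (hpq : q + yp ∉ Set.Icc a b) (hpr : r + yp ∉ Set.Icc a b)
    (hqp : p + yq ∉ Set.Icc a b) (hqq : q + yq ∈ Set.Icc a b) (hqr : r + yq ∉ Set.Icc a b)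
    (hrp : p + yr ∉ Set.Icc a b) (hrq : q + yr ∉ Set.Icc a b) (hrr : r + yr ∈ Set.Icc a b) :
    b - a < e - c := by
  have hp1 := hp.1
  have hp2 := hp.2
  have hq1 := hq.1
  have hq2 := hq.2
  have hr1 := hr.1
  have hr2 := hr.2
  rcases le_total p q with h1 | h1 <;> rcases le_total q r with h2 | h2 <;>
    rcases le_total p r with h3 | h3
  · have := spread h1 h2 hqq hqp hqr; linarith
  · have := spread h1 h2 hqq hqp hqr; linarith
  · have := spread h3 h2 hrr hrp hrq; linarith
  · have := spread h3 h1 hpp hpr hpq; linarith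
  · have := spread h1 h3 hpp hpq hpr; linarith
  · have := spread h2 h3 hrr hrq hrp; linarith
  · have := spread h2 h1 hqq hqr hqp; linarith
  · have := spread h2 h1 hqq hqr hqp; linarith

theorem lower {d h k : ℕ} (hk : IsStarPCG (cTree d h) k) (hd : 2 * (k * k) < d) : h ≤ k := by
  classical
  obtain ⟨w, a, b, hw, hab, hdis, hadj⟩ := hk
  rcases Nat.eq_zero_or_pos h with h0 | hpos
  · omega
  -- a weight function on lists, with junk value outside the tree
  let W : List (Fin d) → ℝ := fun l => if hl : l.length ≤ h then w ⟨l, hl⟩ else 0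
  have hW : ∀ (l : List (Fin d)) (hl : l.length ≤ h), W l = w ⟨l, hl⟩ := by
    intro l hl
    simp [W, hl]
  -- children are joined through some interval
  have hchild : ∀ (l : List (Fin d)) (x : Fin d), l.length + 1 ≤ h →
      ∃ j, W (x :: l) + W l ∈ Set.Icc (a j) (b j) := by
    intro l x hl
    have hl1 : (x :: l).length ≤ h := by simpa using hl
    have hl2 : l.length ≤ h := by omega
    rw [hW _ hl1, hW _ hl2]
    apply (hadj _ _ _).mp
    · exact Or.inr ⟨x, rfl⟩
    · intro heq
      have := congrArg (fun z : Vert d h => z.1.length) heq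
      simp at this
  -- non-children are not
  have hnon : ∀ (l : List (Fin d)) (x y z : Fin d) (j : Fin k), l.length + 2 ≤ h → y ≠ x →
      W (y :: l) + W (z :: x :: l) ∉ Set.Icc (a j) (b j) := by
    intro l x y z j hl hxy hmem
    have hl1 : (y :: l).length ≤ h := by simp; omega
    have hl2 : (z :: x :: l).length ≤ h := by simp; omega
    rw [hW _ hl1, hW _ hl2] at hmem
    have hne : (⟨y :: l, hl1⟩ : Vert d h) ≠ ⟨z :: x :: l, hl2⟩ := by
      intro heq
      have := congrArg (fun z : Vert d h => z.1.length) heq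
      simp at this
    have := (hadj _ _ hne).mpr ⟨j, hmem⟩
    rcases this with ⟨c, hc⟩ | ⟨c, hc⟩
    · simp only [List.cons.injEq] at hc
      exact hxy hc.2.1.symm
    · have := congrArg List.length hc
      simp at this
  have main : ∀ m : ℕ, ∀ l : List (Fin d), l.length + (m + 1) ≤ h →
      ∃ c : Fin k, (∃ x : Fin d, W (x :: l) + W l ∈ Set.Icc (a c) (b c)) ∧
        m + 1 ≤ (Finset.univ.filter (fun j : Fin k => b j - a j ≤ b c - a c)).card := by
    intro m
    induction m with
    | zero =>
      intro l hl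
      have hd0 : 0 < d := by omega
      obtain ⟨j, hj⟩ := hchild l ⟨0, hd0⟩ (by omega)
      refine ⟨j, ⟨_, hj⟩, ?_⟩
      have : j ∈ Finset.univ.filter (fun i : Fin k => b i - a i ≤ b j - a j) := by simp
      exact Finset.card_pos.mpr ⟨j, this⟩
    | succ m ih =>
      intro l hl
      have hcol : ∀ x : Fin d, ∃ p : Fin k × Fin k,
          W (x :: l) + W l ∈ Set.Icc (a p.1) (b p.1) ∧
          (∃ y : Fin d, W (y :: x :: l) + W (x :: l) ∈ Set.Icc (a p.2) (b p.2)) ∧
          m + 1 ≤ (Finset.univ.filter (fun j : Fin k => b j - a j ≤ b p.2 - a p.2)).card := by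
        intro x
        obtain ⟨j, hj⟩ := hchild l x (by omega)
        obtain ⟨c, hc1, hc2⟩ := ih (x :: l) (by simp; omega)
        exact ⟨(j, c), hj, hc1, hc2⟩
      choose f hf1 hf2 hf3 using hcol
      have hcard : Fintype.card (Fin k × Fin k) * 2 < Fintype.card (Fin d) := by
        simp only [Fintype.card_prod, Fintype.card_fin]
        omega
      obtain ⟨p, hp⟩ := Fintype.exists_lt_card_fiber_of_mul_lt_card f hcard
      rw [Finset.two_lt_card] at hp
      obtain ⟨x, hx, y, hy, z, hz, hxy, hxz, hyz⟩ := hp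
      simp only [Finset.mem_filter, Finset.mem_univ, true_and] at hx hy hz
      obtain ⟨x', hx'⟩ := hf2 x
      obtain ⟨y', hy'⟩ := hf2 y
      obtain ⟨z', hz'⟩ := hf2 z
      have h1 := hf1 x
      have h2 := hf1 y
      have h3 := hf1 z
      rw [hx] at h1 hx'
      rw [hy] at h2 hy'
      rw [hz] at h3 hz'
      have hlt : b p.2 - a p.2 < b p.1 - a p.1 := by
        refine three_spread (p := W (x :: l)) (q := W (y :: l)) (r := W (z :: l)) (m := W l)
          (yp := W (x' :: x :: l)) (yq := W (y' :: y :: l)) (yr := W (z' :: z :: l))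
          h1 h2 h3 ?_ ?_ ?_ ?_ ?_ ?_ ?_ ?_ ?_
        · rw [add_comm]; exact hx'
        · exact hnon l x y x' _ (by omega) hxy.symm
        · exact hnon l x z x' _ (by omega) hxz.symm
        · exact hnon l y x y' _ (by omega) hxy
        · rw [add_comm]; exact hy'
        · exact hnon l y z y' _ (by omega) hyz.symm
        · exact hnon l z x z' _ (by omega) hxz
        · exact hnon l z y z' _ (by omega) hyz
        · rw [add_comm]; exact hz'
      refine ⟨p.1, ⟨x, h1⟩, ?_⟩
      have hsub : Finset.univ.filter (fun j : Fin k => b j - a j ≤ b p.2 - a p.2) ⊂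
          Finset.univ.filter (fun j : Fin k => b j - a j ≤ b p.1 - a p.1) := by
        rw [Finset.ssubset_iff_of_subset]
        · refine ⟨p.1, by simp, ?_⟩
          simp only [Finset.mem_filter, Finset.mem_univ, true_and, not_le]
          exact hlt
        · intro j hj
          simp only [Finset.mem_filter, Finset.mem_univ, true_and] at hj ⊢
          linarith
      have h4 := Finset.card_lt_card hsub
      have h5 := hf3 x
      rw [hx] at h5
      omega
  obtain ⟨m, rfl⟩ : ∃ m, h = m + 1 := ⟨h - 1, by omega⟩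
  obtain ⟨c, -, hc⟩ := main m [] (by simp)
  have := Finset.card_le_univ (Finset.univ.filter (fun j : Fin k => b j - a j ≤ b c - a c))
  rw [Fintype.card_fin] at this
  omega

/-- For every `c` there is a finite tree whose star number is larger than `c`; so no constant bounds the star
number on all finite forests. -/
theorem result : ∀ c : ℕ, ∃ (V : Type) (_ : Fintype V) (T : SimpleGraph V),
    T.IsTree ∧ c < starNumber T := by
  intro c
  refine ⟨Vert (2 * (c * c) + 1) (c + 1), Fintype.ofFinite _, cTree _ _, cTree_isTree _ _, ?_⟩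
  have hne : {k : ℕ | 0 < k ∧ IsStarPCG (cTree (2 * (c * c) + 1) (c + 1)) k}.Nonempty :=
    exists_isStarPCG _
  have hmem := Nat.sInf_mem hne
  by_contra hcon
  push Not at hcon
  have hle : sInf {k : ℕ | 0 < k ∧ IsStarPCG (cTree (2 * (c * c) + 1) (c + 1)) k} ≤ c := hcon
  have h1 := lower hmem.2 (by
    have := Nat.mul_le_mul hle hle
    omega)
  omega

end Pool.Agent.Results.MP_90e7d5_co.Unbounded
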